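import Mathlib

set_option autoImplicit false

namespace Pool.Agent.H.MP_43cb56_mp

open MeasureTheory Real Filter Topology
open scoped FourierTransform SchwartzMap

noncomputable def p (s ξ : ℝ) : ℝ := (2 * π * |ξ|) ^ (2 * s)

noncomputable def T (s : ℝ) (f : 𝓢(ℝ, ℂ)) : ℝ := ∫ ξ : ℝ, (2 * π * |ξ|) ^ (2 * s) * ‖𝓕 (fun x : ℝ => f x) ξ‖ ^ 2

noncomputable def ev (s : ℝ) (W : ℝ → ℝ) (n : ℕ) : ℝ :=
  sInf {t : ℝ | ∃ V : Submodule ℂ 𝓢(ℝ, ℂ), Module.finrank ℂ V = n ∧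
    t = sSup {u : ℝ | ∃ f ∈ V, (∫ x, ‖f x‖ ^ 2) = 1 ∧ u = T s f - ∫ x, W x * ‖f x‖ ^ 2}}

noncomputable def g (s x : ℝ) : ℝ := ∫ ξ : ℝ, cos (2 * π * x * ξ) * (1 / (p s ξ + 1))

variable {s : ℝ}

lemma p_nonneg (s ξ : ℝ) : 0 ≤ p s ξ := rpow_nonneg (by positivity) _

lemma p_neg (s ξ : ℝ) : p s (-ξ) = p s ξ := by simp [p]

lemma p_cont (hs : 0 < s) : Continuous (p s) := by
  unfold p
  exact (by fun_prop : Continuous fun ξ : ℝ => 2 * π * |ξ|).rpow_const fun _ => Or.inr (by positivity)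

lemma phi_cont (hs : 0 < s) {E : ℝ} (hE : 0 < E) : Continuous fun ξ => 1 / (p s ξ + E) :=
  continuous_const.div ((p_cont hs).add continuous_const) fun ξ => by have := p_nonneg s ξ; positivity

lemma phi_int (hs : 1 < s) {E : ℝ} (hE : 0 < E) : Integrable fun ξ => 1 / (p s ξ + E) := by
  have h := (integrable_one_add_norm (E := ℝ) (μ := volume) (r := 2 * s) (by simp; linarith)).const_mul
    (2 ^ (2 * s) * (1 + 1 / E))
  refine h.mono' (phi_cont (by linarith) hE).aestronglyMeasurable (Eventually.of_forall fun ξ => ?_)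
  have h0 := p_nonneg s ξ
  have ha : 0 < 2 * s := by linarith
  rw [Real.norm_of_nonneg (by positivity), Real.norm_eq_abs, rpow_neg (by positivity), ← div_eq_mul_inv,
    div_le_div_iff₀ (by positivity) (by positivity), one_mul]
  have h1 : (1 + |ξ|) ^ (2 * s) ≤ 2 ^ (2 * s) * (1 + p s ξ) := by
    rcases le_total |ξ| 1 with h | h
    · calc (1 + |ξ|) ^ (2 * s) ≤ 2 ^ (2 * s) := rpow_le_rpow (by positivity) (by linarith) ha.le
        _ ≤ _ := le_mul_of_one_le_right (by positivity) (by linarith)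
    · calc (1 + |ξ|) ^ (2 * s) ≤ (2 * (2 * π * |ξ|)) ^ (2 * s) :=
            rpow_le_rpow (by positivity) (by nlinarith [pi_gt_three]) ha.le
        _ = 2 ^ (2 * s) * p s ξ := by rw [mul_rpow (by norm_num) (by positivity)]; rfl
        _ ≤ _ := by gcongr; linarith
  refine h1.trans ?_
  rw [mul_assoc]
  gcongr
  have : (1 + 1 / E) * (p s ξ + E) = p s ξ + E + p s ξ / E + 1 := by field_simp; ring
  rw [this]
  have : 0 ≤ p s ξ / E := by positivity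
  linarith

lemma cosphi_int (hs : 1 < s) {E : ℝ} (hE : 0 < E) (r : ℝ) :
    Integrable fun ξ => cos (2 * π * r * ξ) * (1 / (p s ξ + E)) :=
  (phi_int hs hE).bdd_mul (c := 1) (by fun_prop : Continuous fun ξ : ℝ => cos (2 * π * r * ξ)).aestronglyMeasurable
    (Eventually.of_forall fun ξ => abs_cos_le_one _)

lemma scale {x : ℝ} (hx : 0 < x) (r : ℝ) :
    ∫ ξ, cos (2 * π * r * ξ) * (1 / (p s ξ + x ^ (2 * s))) = x ^ (1 - 2 * s) * g s (r * x) := by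
  have h := Measure.integral_comp_mul_left (fun ξ => cos (2 * π * r * ξ) * (1 / (p s ξ + x ^ (2 * s)))) x
  have e : ∀ ξ, cos (2 * π * r * (x * ξ)) * (1 / (p s (x * ξ) + x ^ (2 * s))) =
      (x ^ (2 * s))⁻¹ * (cos (2 * π * (r * x) * ξ) * (1 / (p s ξ + 1))) := by
    intro ξ
    have h1 : p s (x * ξ) = x ^ (2 * s) * p s ξ := by
      unfold p
      rw [← mul_rpow hx.le (by positivity), abs_mul, abs_of_pos hx]
      congr 1; ring
    have h2 := p_nonneg s ξ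
    have h3 : 0 < x ^ (2 * s) := rpow_pos_of_pos hx _
    rw [h1, show 2 * π * r * (x * ξ) = 2 * π * (r * x) * ξ by ring]
    field_simp
  simp only [e, integral_const_mul] at h
  rw [abs_of_pos (inv_pos.2 hx), smul_eq_mul] at h
  have e2 : x ^ (1 - 2 * s) * g s (r * x) = x * ((x ^ (2 * s))⁻¹ * g s (r * x)) := by
    rw [rpow_sub hx, rpow_one]; ring
  rw [e2]
  unfold g
  rw [h]
  field_simp

lemma scale0 {x : ℝ} (hx : 0 < x) : ∫ ξ, 1 / (p s ξ + x ^ (2 * s)) = x ^ (1 - 2 * s) * g s 0 := by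
  have := scale (s := s) hx 0
  simpa using this

lemma g0_pos (hs : 1 < s) : 0 < g s 0 := by
  have : g s 0 = ∫ ξ, 1 / (p s ξ + 1) := by simp [g]
  rw [this]
  refine integral_pos_of_integrable_nonneg_nonzero (x := 0) (phi_cont (by linarith) one_pos) (phi_int hs one_pos)
    (fun ξ => by have := p_nonneg s ξ; positivity) (by have := p_nonneg s 0; positivity)

lemma sq_int (h : 𝓢(ℝ, ℂ)) : Integrable fun x => ‖h x‖ ^ 2 := by
  have := (h.integrable (μ := volume)).norm.bdd_mul (c := SchwartzMap.seminorm ℝ 0 0 h)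
    h.continuous.norm.aestronglyMeasurable (Eventually.of_forall fun x => by
      simpa using h.norm_le_seminorm ℝ x)
  simpa [sq] using this

lemma psq_int (hs : 0 < s) (hs' : s < 3 / 2) (h : 𝓢(ℝ, ℂ)) : Integrable fun x => p s x * ‖h x‖ ^ 2 := by
  have h1 := ((h.integrable_pow_mul volume 3).const_mul ((2 * π) ^ 3)).bdd_mul (c := SchwartzMap.seminorm ℝ 0 0 h)
    h.continuous.norm.aestronglyMeasurable (Eventually.of_forall fun x => by
      simpa using h.norm_le_seminorm ℝ x)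
  refine ((sq_int h).add h1).mono' ((p_cont hs).mul (h.continuous.norm.pow 2)).aestronglyMeasurable
    (Eventually.of_forall fun x => ?_)
  have h0 := p_nonneg s x
  rw [Real.norm_of_nonneg (by positivity)]
  have h2 : p s x ≤ 1 + (2 * π * |x|) ^ 3 := by
    unfold p
    have hp : 0 ≤ 2 * π * |x| := by positivity
    rcases le_total (2 * π * |x|) 1 with h | h
    · have := rpow_le_one hp h (by linarith : 0 ≤ 2 * s)
      have : 0 ≤ (2 * π * |x|) ^ 3 := by positivity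
      linarith
    · have := rpow_le_rpow_of_exponent_le h (by push_cast; linarith : 2 * s ≤ (3 : ℕ))
      rw [rpow_natCast] at this
      linarith
  calc p s x * ‖h x‖ ^ 2 ≤ (1 + (2 * π * |x|) ^ 3) * ‖h x‖ ^ 2 := by gcongr
    _ = _ := by simp only [Pi.add_apply, Real.norm_eq_abs]; ring

lemma T_eq (f : 𝓢(ℝ, ℂ)) : T s f = ∫ ξ, p s ξ * ‖(𝓕 f : 𝓢(ℝ, ℂ)) ξ‖ ^ 2 := rfl

lemma T_nonneg (f : 𝓢(ℝ, ℂ)) : 0 ≤ T s f := by
  rw [T_eq]; exact integral_nonneg fun ξ => mul_nonneg (p_nonneg _ _) (by positivity)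

lemma Q_eq (hs : 0 < s) (hs' : s < 3 / 2) (f : 𝓢(ℝ, ℂ)) (E : ℝ) :
    T s f + E * ∫ x, ‖f x‖ ^ 2 = ∫ ξ, (p s ξ + E) * ‖(𝓕 f : 𝓢(ℝ, ℂ)) ξ‖ ^ 2 := by
  rw [T_eq, ← SchwartzMap.integral_norm_sq_fourier f, ← integral_const_mul,
    ← integral_add (psq_int hs hs' _) ((sq_int _).const_mul E)]
  simp only [add_mul]

lemma sob (hs : 1 < s) (hs' : s < 3 / 2) {E : ℝ} (hE : 0 < E) (f : 𝓢(ℝ, ℂ)) (x : ℝ) :
    ‖f x‖ ^ 2 ≤ (T s f + E * ∫ x, ‖f x‖ ^ 2) * ∫ ξ, 1 / (p s ξ + E) := by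
  rw [Q_eq (by linarith) hs']
  set h : 𝓢(ℝ, ℂ) := 𝓕 f with hh
  have h1 : ‖f x‖ ≤ ∫ ξ, ‖h ξ‖ := by
    have : f = 𝓕⁻ h := by rw [hh, FourierTransform.fourierInv_fourier_eq]
    rw [this, SchwartzMap.fourierInv_coe, Real.fourierInv_eq]
    refine (norm_integral_le_integral_norm _).trans (le_of_eq ?_)
    simp [Circle.norm_smul]
  have hQi : Integrable fun ξ => (p s ξ + E) * ‖h ξ‖ ^ 2 := by
    have hs0 : 0 < s := by linarith
    simp only [add_mul]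
    exact (psq_int hs0 hs' h).add ((sq_int h).const_mul E)
  set Q := ∫ ξ, (p s ξ + E) * ‖h ξ‖ ^ 2
  set I := ∫ ξ, 1 / (p s ξ + E)
  have hQ : 0 ≤ Q := integral_nonneg fun ξ => by have := p_nonneg s ξ; positivity
  have hI : 0 < I := integral_pos_of_integrable_nonneg_nonzero (x := 0) (phi_cont (by linarith) hE) (phi_int hs hE)
    (fun ξ => by have := p_nonneg s ξ; positivity) (by have := p_nonneg s 0; positivity)
  have h2 : ∀ l : ℝ, 0 < l → ∫ ξ, ‖h ξ‖ ≤ l / 2 * Q + 1 / (2 * l) * I := by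
    intro l hl
    rw [← integral_const_mul, ← integral_const_mul, ← integral_add (hQi.const_mul _) ((phi_int hs hE).const_mul _)]
    refine integral_mono (h.integrable (μ := volume)).norm ((hQi.const_mul _).add ((phi_int hs hE).const_mul _))
      fun ξ => ?_
    have h0 := p_nonneg s ξ
    have hq : 0 < p s ξ + E := by positivity
    simp only
    rw [← sub_nonneg]
    have : l / 2 * ((p s ξ + E) * ‖h ξ‖ ^ 2) + 1 / (2 * l) * (1 / (p s ξ + E)) - ‖h ξ‖ =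
        (l * (p s ξ + E) * ‖h ξ‖ - 1) ^ 2 / (2 * l * (p s ξ + E)) := by
      field_simp; ring
    rw [this]; positivity
  rcases (norm_nonneg (f x)).eq_or_lt with h0 | h0
  · rw [← h0]; simp; positivity
  · have h3 := h1.trans (h2 (I / ‖f x‖) (by positivity))
    have : I / ‖f x‖ / 2 * Q + 1 / (2 * (I / ‖f x‖)) * I = (Q * I + ‖f x‖ ^ 2) / (2 * ‖f x‖) := by
      field_simp
    rw [this, le_div_iff₀ (by positivity)] at h3
    nlinarith

lemma Wsq_int {W : ℝ → ℝ} (hW : Integrable W) (f : 𝓢(ℝ, ℂ)) : Integrable fun x => W x * ‖f x‖ ^ 2 :=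
  hW.mul_bdd (c := (SchwartzMap.seminorm ℝ 0 0 f) ^ 2) (f.continuous.norm.pow 2).aestronglyMeasurable
    (Eventually.of_forall fun x => by
      rw [Real.norm_of_nonneg (by positivity)]
      exact pow_le_pow_left₀ (norm_nonneg _) (f.norm_le_seminorm ℝ x) 2)

lemma low (hs : 1 < s) (hs' : s < 3 / 2) {E : ℝ} (hE : 0 < E) {W : ℝ → ℝ} (h0 : ∀ x, 0 ≤ W x) (hW : Integrable W)
    (h : (∫ ξ, 1 / (p s ξ + E)) * ∫ x, W x ≤ 1) (f : 𝓢(ℝ, ℂ)) (hf : ∫ x, ‖f x‖ ^ 2 = 1) :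
    -E ≤ T s f - ∫ x, W x * ‖f x‖ ^ 2 := by
  have h1 : ∫ x, W x * ‖f x‖ ^ 2 ≤ ∫ x, W x * ((T s f + E) * ∫ ξ, 1 / (p s ξ + E)) := by
    refine integral_mono (Wsq_int hW f) (hW.mul_const _) fun x => ?_
    have := sob hs hs' hE f x
    rw [hf, mul_one] at this
    exact mul_le_mul_of_nonneg_left this (h0 x)
  rw [integral_mul_const] at h1
  have h2 := T_nonneg (s := s) f
  nlinarith [mul_le_mul_of_nonneg_left h (by linarith : 0 ≤ T s f + E)]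

lemma lowS (hs : 1 < s) (hs' : s < 3 / 2) {E : ℝ} (hE : 0 < E) {W : ℝ → ℝ} (h0 : ∀ x, 0 ≤ W x) (hW : Integrable W)
    (h : (∫ ξ, 1 / (p s ξ + E)) * ∫ x, W x ≤ 1) (V : Submodule ℂ 𝓢(ℝ, ℂ)) :
    -E ≤ sSup {u : ℝ | ∃ f ∈ V, (∫ x, ‖f x‖ ^ 2) = 1 ∧ u = T s f - ∫ x, W x * ‖f x‖ ^ 2} := by
  set S := {u : ℝ | ∃ f ∈ V, (∫ x, ‖f x‖ ^ 2) = 1 ∧ u = T s f - ∫ x, W x * ‖f x‖ ^ 2}
  by_cases hb : BddAbove S
  · rcases S.eq_empty_or_nonempty with he | ⟨u, hu⟩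
    · rw [he, Real.sSup_empty]; linarith
    · refine le_trans ?_ (le_csSup hb hu)
      obtain ⟨f, -, hf, rfl⟩ := hu
      exact low hs hs' hE h0 hW h f hf
  · rw [Real.sSup_of_not_bddAbove hb]; linarith

lemma ev_low (hs : 1 < s) (hs' : s < 3 / 2) {E : ℝ} (hE : 0 < E) {W : ℝ → ℝ} (h0 : ∀ x, 0 ≤ W x)
    (hW : Integrable W) (h : (∫ ξ, 1 / (p s ξ + E)) * ∫ x, W x ≤ 1) (n : ℕ) : -E ≤ ev s W n := by
  refine Real.le_sInf ?_ (by linarith)
  rintro t ⟨V, -, rfl⟩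
  exact lowS hs hs' hE h0 hW h V

lemma exE (hs : 1 < s) {w : ℝ} (hw : 0 < w) : ∃ E : ℝ, 0 < E ∧ (∫ ξ, 1 / (p s ξ + E)) * w ≤ 1 ∧
    E ^ (1 - 1 / (2 * s)) = g s 0 * w := by
  have hL := g0_pos hs
  have hb : 2 * s - 1 ≠ 0 := by linarith
  set x := (g s 0 * w) ^ (2 * s - 1)⁻¹ with hx
  have hx0 : 0 < x := rpow_pos_of_pos (by positivity) _
  have hxb : x ^ (2 * s - 1) = g s 0 * w := rpow_inv_rpow (by positivity) hb
  refine ⟨x ^ (2 * s), rpow_pos_of_pos hx0 _, ?_, ?_⟩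
  · rw [scale0 hx0, show 1 - 2 * s = -(2 * s - 1) by ring, rpow_neg hx0.le, hxb]
    apply le_of_eq; field_simp
  · rw [← rpow_mul hx0.le, ← hxb]
    congr 1; field_simp

lemma one_particle (hs : 1 < s) (hs' : s < 3 / 2) (W : ℝ → ℝ) (h0 : ∀ x, 0 ≤ W x) (hW : Integrable W) :
    (max 0 (-ev s W 1)) ^ (1 - 1 / (2 * s)) ≤ g s 0 * ∫ x, W x := by
  have hγ : 0 < 1 - 1 / (2 * s) := by
    rw [sub_pos, div_lt_one (by linarith)]; linarith
  rcases (integral_nonneg h0 : 0 ≤ ∫ x, W x).eq_or_lt with hw | hw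
  · have : max 0 (-ev s W 1) = 0 := by
      refine max_eq_left (le_of_forall_pos_le_add fun E hE => ?_)
      have := ev_low hs hs' hE h0 hW (by rw [← hw]; simp) 1
      linarith
    rw [this, ← hw, zero_rpow hγ.ne', mul_zero]
  · obtain ⟨E, hE, h1, h2⟩ := exE hs hw
    rw [← h2]
    refine rpow_le_rpow (le_max_left _ _) (max_le hE.le ?_) hγ.le
    linarith [ev_low hs hs' hE h0 hW h1 1]

lemma ev_le (hs : 1 < s) (hs' : s < 3 / 2) {W : ℝ → ℝ} (h0 : ∀ x, 0 ≤ W x) (hW : Integrable W)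
    (hw : 0 < ∫ x, W x) (V : Submodule ℂ 𝓢(ℝ, ℂ)) (n : ℕ) (hn : Module.finrank ℂ V = n) {E : ℝ}
    (u : 𝓢(ℝ, ℂ)) (hu : u ∈ V) (x0 : ℝ) (hx : u x0 ≠ 0)
    (h : ∀ f ∈ V, T s f - ∫ x, W x * ‖f x‖ ^ 2 ≤ -E * ∫ x, ‖f x‖ ^ 2) : ev s W n ≤ -E := by
  obtain ⟨E0, hE0, h1, -⟩ := exE hs hw
  refine csInf_le_of_le ⟨-E0, ?_⟩ ⟨V, hn, rfl⟩ (csSup_le ?_ ?_)
  · rintro t ⟨V, -, rfl⟩
    exact lowS hs hs' hE0 h0 hW h1 V
  · have hN : 0 < ∫ x, ‖u x‖ ^ 2 := integral_pos_of_integrable_nonneg_nonzero (x := x0)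
      (u.continuous.norm.pow 2) (sq_int u) (fun _ => by positivity) (by positivity)
    refine ⟨_, ((√(∫ x, ‖u x‖ ^ 2))⁻¹ : ℝ) • u, V.smul_of_tower_mem _ hu, ?_, rfl⟩
    simp only [smul_apply, norm_smul, mul_pow, integral_const_mul, Real.norm_eq_abs, sq_abs, inv_pow]
    rw [Real.sq_sqrt hN.le]
    field_simp
  · rintro t ⟨f, hf, h2, rfl⟩
    have := h f hf
    rwa [h2, mul_one] at this

end Pool.Agent.H.MP_43cb56_mp
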