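import Pool.Agent.H.MP_43cb56_mp.A

set_option autoImplicit false

namespace Pool.Agent.H.MP_43cb56_mp

open MeasureTheory Real Filter Topology
open scoped FourierTransform SchwartzMap RealInnerProductSpace

variable {s : ℝ}

lemma g_cont (hs : 1 < s) : Continuous (g s) := by
  unfold g
  refine continuous_of_dominated (bound := fun ξ => 1 / (p s ξ + 1))
    (fun x => (cosphi_int hs one_pos x).aestronglyMeasurable) (fun x => Eventually.of_forall fun ξ => ?_)
    (phi_int hs one_pos) (Eventually.of_forall fun ξ => by fun_prop)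
  have := p_nonneg s ξ
  rw [norm_mul, Real.norm_of_nonneg (by positivity : 0 ≤ 1 / (p s ξ + 1))]
  exact mul_le_of_le_one_left (by positivity) (abs_cos_le_one _)

lemma g_neg (x : ℝ) : g s (-x) = g s x := by
  unfold g
  congr 1; ext ξ
  rw [show 2 * π * -x * ξ = -(2 * π * x * ξ) by ring, cos_neg]

lemma g_abs (hs : 1 < s) (x : ℝ) : |g s x| ≤ g s 0 := by
  have : g s 0 = ∫ ξ, 1 / (p s ξ + 1) := by simp [g]
  rw [this, ← Real.norm_eq_abs]
  refine norm_integral_le_of_norm_le (phi_int hs one_pos) (Eventually.of_forall fun ξ => ?_)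
  have := p_nonneg s ξ
  rw [norm_mul, Real.norm_of_nonneg (by positivity : 0 ≤ 1 / (p s ξ + 1))]
  exact mul_le_of_le_one_left (by positivity) (abs_cos_le_one _)

lemma re_F (hs : 1 < s) (w : ℝ) : (𝓕 (fun ξ : ℝ => ((1 / (p s ξ + 1) : ℝ) : ℂ)) w).re = g s w := by
  have hi : Integrable fun ξ : ℝ => ((1 / (p s ξ + 1) : ℝ) : ℂ) := (phi_int hs one_pos).ofReal
  rw [Real.fourier_real_eq_integral_exp_smul, ← RCLike.re_to_complex, ← integral_re]
  · unfold g
    congr 1; ext ξ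
    simp only [smul_eq_mul, RCLike.re_to_complex, Complex.re_mul_ofReal, Complex.exp_ofReal_mul_I_re]
    rw [show -2 * π * ξ * w = -(2 * π * w * ξ) by ring, cos_neg]
  · exact hi.bdd_mul (c := 1) (by fun_prop : Continuous fun v : ℝ =>
      Complex.exp (((-2 * π * v * w : ℝ) : ℂ) * Complex.I)).aestronglyMeasurable
      (Eventually.of_forall fun v => (Complex.norm_exp_ofReal_mul_I _).le)

lemma gauss_lim {f : ℝ → ℂ} (hf : Integrable f) (hc : Continuous f) (v : ℝ) :
    Tendsto (fun c : ℝ => ∫ w : ℝ, Complex.exp (- c⁻¹ * ‖w‖ ^ 2 + 2 * π * Complex.I * ⟪v, w⟫) • (𝓕 f) w)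
      atTop (𝓝 (f v)) := by
  apply (Real.tendsto_integral_gaussian_smul' hf hc.continuousAt).congr'
  filter_upwards [Ioi_mem_atTop 0] with c (hc : 0 < c)
  have J : Integrable (fun w : ℝ ↦ Complex.exp (- c⁻¹ * ‖w‖ ^ 2 + 2 * π * Complex.I * ⟪v, w⟫)) :=
    GaussianFourier.integrable_cexp_neg_mul_sq_norm_add (by simpa) _ _
  have K : ∫ w : ℝ, 𝓕 (fun w : ℝ ↦ Complex.exp (- c⁻¹ * ‖w‖ ^ 2 + 2 * π * Complex.I * ⟪v, w⟫)) w • f w =
      ∫ w : ℝ, Complex.exp (- c⁻¹ * ‖w‖ ^ 2 + 2 * π * Complex.I * ⟪v, w⟫) • (𝓕 f) w := by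
    simpa using! (VectorFourier.integral_fourierIntegral_smul_eq_flip (L := innerₗ ℝ)
      Real.continuous_fourierChar continuous_inner J hf)
  rw [← K]
  congr with w
  rw [fourier_gaussian_innerProductSpace' (by simpa)]
  congr 2
  · congr 1; simp
  · congr 1; simp; ring

lemma g_lim (hs : 1 < s) (v : ℝ) :
    Tendsto (fun c : ℝ => ∫ w : ℝ, exp (-c⁻¹ * w ^ 2) * cos (2 * π * v * w) * g s w) atTop (𝓝 (1 / (p s v + 1))) := by
  have hi : Integrable fun ξ : ℝ => ((1 / (p s ξ + 1) : ℝ) : ℂ) := (phi_int hs one_pos).ofReal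
  have hc : Continuous fun ξ : ℝ => ((1 / (p s ξ + 1) : ℝ) : ℂ) :=
    Complex.continuous_ofReal.comp (phi_cont (by linarith) one_pos)
  set F := 𝓕 (fun ξ : ℝ => ((1 / (p s ξ + 1) : ℝ) : ℂ)) with hF
  have hFc : Continuous F := VectorFourier.fourierIntegral_continuous Real.continuous_fourierChar
    (by fun_prop) hi
  have hFb : ∀ w, ‖F w‖ ≤ ∫ ξ : ℝ, ‖((1 / (p s ξ + 1) : ℝ) : ℂ)‖ := fun w =>
    VectorFourier.norm_fourierIntegral_le_integral_norm _ _ _ _ _
  have h := ((gauss_lim hi hc v).add (gauss_lim hi hc (-v))).const_mul (1 / 2)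
  have h2 := (Complex.continuous_re.tendsto _).comp h
  have e : (1 / 2 * (((1 / (p s v + 1) : ℝ) : ℂ) + ((1 / (p s (-v) + 1) : ℝ) : ℂ))).re = 1 / (p s v + 1) := by
    rw [p_neg, ← two_mul, ← mul_assoc, show (1 / 2 * 2 : ℂ) = 1 by norm_num, one_mul, Complex.ofReal_re]
  rw [e] at h2
  apply h2.congr'
  filter_upwards [Ioi_mem_atTop 0] with c (hc : 0 < c)
  have J : ∀ v : ℝ, Integrable (fun w : ℝ ↦ Complex.exp (- c⁻¹ * ‖w‖ ^ 2 + 2 * π * Complex.I * ⟪v, w⟫) • F w) :=
    fun v => (GaussianFourier.integrable_cexp_neg_mul_sq_norm_add (by simpa) _ _).mul_bdd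
      hFc.aestronglyMeasurable (Eventually.of_forall hFb)
  simp only [Function.comp]
  rw [← integral_add (J v) (J (-v)), ← integral_const_mul, ← RCLike.re_to_complex, ← integral_re]
  swap
  · exact ((J v).add (J (-v))).const_mul _
  congr 1; ext w
  have : 1 / 2 * (Complex.exp (- c⁻¹ * ‖w‖ ^ 2 + 2 * π * Complex.I * ⟪v, w⟫) • F w +
      Complex.exp (- c⁻¹ * ‖w‖ ^ 2 + 2 * π * Complex.I * ⟪-v, w⟫) • F w) =
      ((exp (-c⁻¹ * w ^ 2) * cos (2 * π * v * w) : ℝ) : ℂ) * F w := by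
    simp only [smul_eq_mul, Complex.exp_add, Real.norm_eq_abs, RCLike.inner_apply, conj_trivial]
    have e1 : ((|w| : ℝ) : ℂ) ^ 2 = (w : ℂ) ^ 2 := by
      rw [← Complex.ofReal_pow, sq_abs, Complex.ofReal_pow]
    push_cast
    rw [e1, Complex.cos]
    ring_nf
  simp only [RCLike.re_to_complex]
  rw [this, Complex.re_ofReal_mul, re_F hs]

lemma g_negative (hs : 1 < s) : ∃ X : ℝ, 0 < X ∧ g s X < 0 := by
  by_contra hcon
  push Not at hcon
  have h0 : ∀ x, 0 ≤ g s x := by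
    intro x
    rcases lt_trichotomy x 0 with h | h | h
    · rw [← g_neg]; exact hcon _ (by linarith)
    · rw [h]; exact (g0_pos hs).le
    · exact hcon _ h
  set l : ℝ := 2 ^ (2 * s) with hl
  have hl4 : 4 < l := by
    have : (2 : ℝ) ^ (2 : ℝ) < 2 ^ (2 * s) := rpow_lt_rpow_of_exponent_lt (by norm_num) (by linarith)
    norm_num at this
    exact this
  set q := (l - 4) / (4 * l) with hq
  have hq0 : 0 < q := div_pos (by linarith) (by linarith)
  set t := q ^ (2 * s)⁻¹ / (2 * π) with ht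
  have ht0 : 0 < t := div_pos (rpow_pos_of_pos hq0 _) (by positivity)
  have p0 : p s 0 = 0 := by simp [p]; rw [zero_rpow (by linarith)]
  have p1 : p s t = q := by
    unfold p
    rw [abs_of_pos ht0, ht, mul_div_cancel₀ _ (by positivity), rpow_inv_rpow hq0.le (by linarith)]
  have p2 : p s (2 * t) = l * q := by
    rw [← p1]
    unfold p
    rw [hl, ← mul_rpow (by norm_num) (by positivity), abs_mul]
    congr 1; norm_num; ring
  have h := (((g_lim hs 0).const_mul 3).sub ((g_lim hs t).const_mul 4)).add (g_lim hs (2 * t))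
  rw [p0, p1, p2] at h
  have h1 := ge_of_tendsto h (b := 0) (by
    filter_upwards [Ioi_mem_atTop 0] with c (hc : 0 < c)
    have J : ∀ v : ℝ, Integrable fun w : ℝ => exp (-c⁻¹ * w ^ 2) * cos (2 * π * v * w) * g s w := fun v =>
      ((integrable_exp_neg_mul_sq (inv_pos.2 hc)).mul_bdd (c := 1)
        (by fun_prop : Continuous fun w : ℝ => cos (2 * π * v * w)).aestronglyMeasurable
        (Eventually.of_forall fun w => abs_cos_le_one _)).mul_bdd (g_cont hs).aestronglyMeasurable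
        (Eventually.of_forall (g_abs hs))
    rw [← integral_const_mul, ← integral_const_mul, ← integral_sub ((J _).const_mul _) ((J _).const_mul _),
      ← integral_add _ (J _)]
    swap
    · exact ((J _).const_mul _).sub ((J _).const_mul _)
    refine integral_nonneg fun w => ?_
    have e : cos (2 * π * (2 * t) * w) = 2 * cos (2 * π * t * w) ^ 2 - 1 := by
      rw [← cos_two_mul]; congr 1; ring
    have : 3 * (exp (-c⁻¹ * w ^ 2) * cos (2 * π * 0 * w) * g s w) -
        4 * (exp (-c⁻¹ * w ^ 2) * cos (2 * π * t * w) * g s w) +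
        exp (-c⁻¹ * w ^ 2) * cos (2 * π * (2 * t) * w) * g s w =
        exp (-c⁻¹ * w ^ 2) * g s w * (2 * (1 - cos (2 * π * t * w)) ^ 2) := by
      rw [e]; simp; ring
    simp only [Pi.zero_apply]
    rw [this]
    have := h0 w
    positivity)
  have hql : 4 * l * q = l - 4 := by rw [hq]; field_simp
  have e : 3 * (1 / (0 + 1 : ℝ)) - 4 * (1 / (q + 1)) + 1 / (l * q + 1) =
      q * ((4 - l) + 3 * l * q) / ((q + 1) * (l * q + 1)) := by
    field_simp; ring
  rw [e] at h1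
  have : q * ((4 - l) + 3 * l * q) / ((q + 1) * (l * q + 1)) < 0 :=
    div_neg_of_neg_of_pos (mul_neg_of_pos_of_neg hq0 (by nlinarith)) (by positivity)
  linarith

lemma choose (hs : 1 < s) : ∃ x y K : ℝ, 0 < x ∧ x ≤ y ∧ 0 < K ∧ x ^ (2 * s - 1) < K * (g s 0 + g s x) ∧
    y ^ (2 * s - 1) < K * (g s 0 - g s y) ∧ 2 * K * g s 0 < x ^ (2 * s - 1) + y ^ (2 * s - 1) := by
  obtain ⟨X, hX, hgX⟩ := g_negative hs
  have hL := g0_pos hs
  have hc := g_cont hs
  obtain ⟨z, hz, hmin⟩ := (isCompact_Icc (a := 0) (b := X)).exists_isMinOn ⟨0, le_rfl, hX.le⟩ hc.continuousOn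
  have hm : g s z < 0 := lt_of_le_of_lt (hmin ⟨hX.le, le_rfl⟩) hgX
  have hK : IsCompact (Set.Icc 0 X ∩ {x | g s x = g s z}) :=
    isCompact_Icc.inter_right (isClosed_eq hc continuous_const)
  obtain ⟨y, ⟨hy, hyz⟩, hleast⟩ := hK.exists_isLeast ⟨z, hz, rfl⟩
  have hyz' : g s y = g s z := hyz
  have hy0 : 0 < y := by
    rcases hy.1.eq_or_lt with h | h
    · rw [← h] at hyz'; linarith
    · exact h
  have hb : 0 < 2 * s - 1 := by linarith
  have hyb : 0 < y ^ (2 * s - 1) := rpow_pos_of_pos hy0 _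
  set K0 := y ^ (2 * s - 1) / (g s 0 - g s y) with hK0
  have hd : 0 < g s 0 - g s y := by linarith
  have hK0p : 0 < K0 := div_pos hyb hd
  have hK0e : y ^ (2 * s - 1) = K0 * (g s 0 - g s y) := by rw [hK0]; field_simp
  have hF : Continuous fun x : ℝ => x ^ (2 * s - 1) - K0 * (g s 0 + g s x) :=
    (continuous_id.rpow_const fun _ => Or.inr hb.le).sub (continuous_const.mul (continuous_const.add hc))
  obtain ⟨x, hx, hx0⟩ := intermediate_value_Ioo hy0.le hF.continuousOn (a := 0) (b := y)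
    (show (0 : ℝ) ∈ Set.Ioo _ _ from ⟨by simp only [zero_rpow hb.ne']; nlinarith, by
      simp only [hK0e]; nlinarith⟩)
  simp only at hx0
  have hxX : x ∈ Set.Icc 0 X := ⟨hx.1.le, hx.2.le.trans hy.2⟩
  have hgx : g s y < g s x := by
    have h' : g s z ≤ g s x := hmin hxX
    rcases h'.eq_or_lt with h | h
    · exact absurd (hleast ⟨hxX, h.symm⟩) (not_le.2 hx.2)
    · linarith
  have hxb : 0 < x ^ (2 * s - 1) := rpow_pos_of_pos hx.1 _
  have hxe : x ^ (2 * s - 1) = K0 * (g s 0 + g s x) := by linarith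
  have hη : 0 < (g s x - g s y) / (4 * g s 0) := div_pos (by linarith) (by linarith)
  refine ⟨x, y, K0 * (1 + (g s x - g s y) / (4 * g s 0)), hx.1, hx.2.le, by positivity, ?_, ?_, ?_⟩
  · nlinarith [mul_pos hη hxb]
  · nlinarith [mul_pos hη hyb]
  · rw [hxe, hK0e]
    have : 2 * (K0 * (1 + (g s x - g s y) / (4 * g s 0))) * g s 0 = 2 * K0 * g s 0 + K0 * (g s x - g s y) / 2 := by
      field_simp; ring
    rw [this]
    nlinarith [mul_pos hK0p (sub_pos.2 hgx)]

end Pool.Agent.H.MP_43cb56_mp
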