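import Pool.Agent.H.MP_43cb56_mp.B

set_option autoImplicit false

namespace Pool.Agent.H.MP_43cb56_mp

open MeasureTheory Real Filter Topology
open scoped FourierTransform SchwartzMap ContDiff

variable {s : ℝ}

lemma ex_psi (hs : 1 < s) {E : ℝ} (hE : 0 < E) {w : ℝ → ℝ} (hw : Continuous w) (hw1 : ∀ ξ, |w ξ| ≤ 1) {b : ℝ}
    (hb : b < ∫ ξ, w ξ * (1 / (p s ξ + E))) : ∃ ψ : ℝ → ℝ, ContDiff ℝ ∞ ψ ∧ HasCompactSupport ψ ∧
      (∀ ξ, ψ (-ξ) = ψ ξ) ∧ (∀ ξ, 0 ≤ ψ ξ) ∧ (∀ ξ, (p s ξ + E) * ψ ξ ≤ 1) ∧ b < ∫ ξ, w ξ * ψ ξ := by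
  let χ : ℕ → ℝ → ℝ := fun n => (⟨n + 1, n + 2, by positivity, by linarith⟩ : ContDiffBump (0 : ℝ))
  let ψ : ℕ → ℝ → ℝ := fun n ξ => χ n ξ * (((2 * π * ξ) ^ 2 + 1 / (n + 1)) ^ s + E)⁻¹
  have hp : ∀ ξ, p s ξ = ((2 * π * ξ) ^ 2) ^ s := by
    intro ξ
    unfold p
    rw [rpow_mul (by positivity), rpow_two, mul_pow (2 * π), sq_abs, ← mul_pow]
  have h1 : ∀ n, ContDiff ℝ ∞ (ψ n) := by
    intro n
    refine (ContDiffBump.contDiff _).mul (ContDiff.inv (ContDiff.add (ContDiff.rpow_const_of_ne (by fun_prop)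
      fun ξ => by positivity) contDiff_const) fun ξ => by positivity)
  have h2 : ∀ n ξ, 0 ≤ ψ n ξ := fun n ξ => mul_nonneg (ContDiffBump.nonneg _) (by positivity)
  have h3 : ∀ n ξ, ψ n ξ ≤ 1 / (p s ξ + E) := by
    intro n ξ
    have h0 := p_nonneg s ξ
    calc ψ n ξ ≤ 1 * (((2 * π * ξ) ^ 2 + 1 / (n + 1)) ^ s + E)⁻¹ :=
          mul_le_mul_of_nonneg_right (ContDiffBump.le_one _) (by positivity)
      _ ≤ _ := by
        rw [one_mul, one_div (p s ξ + E)]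
        apply inv_anti₀ (by positivity)
        rw [hp]
        gcongr
        exact le_add_of_nonneg_right (by positivity)
  have h4 : Tendsto (fun n => ∫ ξ, w ξ * ψ n ξ) atTop (𝓝 (∫ ξ, w ξ * (1 / (p s ξ + E)))) := by
    refine tendsto_integral_of_dominated_convergence (fun ξ => 1 / (p s ξ + E))
      (fun n => (hw.mul (h1 n).continuous).aestronglyMeasurable) (phi_int hs hE)
      (fun n => Eventually.of_forall fun ξ => ?_) (Eventually.of_forall fun ξ => ?_)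
    · rw [norm_mul, Real.norm_of_nonneg (h2 n ξ)]
      exact (mul_le_of_le_one_left (h2 n ξ) (hw1 ξ)).trans (h3 n ξ)
    · apply Tendsto.const_mul
      have a1 : Tendsto (fun n => χ n ξ) atTop (𝓝 1) := by
        apply tendsto_const_nhds.congr'
        filter_upwards [eventually_ge_atTop ⌈|ξ|⌉₊] with n hn
        refine (ContDiffBump.one_of_mem_closedBall _ ?_).symm
        simp only [mem_closedBall_zero_iff, Real.norm_eq_abs]
        have : |ξ| ≤ n := (Nat.le_ceil _).trans (by exact_mod_cast hn)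
        linarith
      have a2 : Tendsto (fun n : ℕ => (2 * π * ξ) ^ 2 + 1 / ((n : ℝ) + 1)) atTop (𝓝 ((2 * π * ξ) ^ 2 + 0)) :=
        tendsto_const_nhds.add tendsto_one_div_add_atTop_nhds_zero_nat
      rw [add_zero] at a2
      have a3 := ((a2.rpow_const (p := s) (Or.inr (by linarith))).add_const E).inv₀ (by positivity)
      have := a1.mul a3
      rw [one_mul, ← hp, ← one_div] at this
      exact this
  obtain ⟨n, hn⟩ := (h4.eventually (lt_mem_nhds hb)).exists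
  refine ⟨ψ n, h1 n, (ContDiffBump.hasCompactSupport _).mul_right, fun ξ => ?_, h2 n, fun ξ => ?_, hn⟩
  · simp only [ψ, χ, ContDiffBump.neg, mul_neg, neg_sq]
  · have h0 := p_nonneg s ξ
    have := h3 n ξ
    rw [le_div_iff₀ (by positivity)] at this
    linarith

/-- trial function: parity e, weight t = cos or sin -/
lemma ex_trial (hs : 1 < s) (hs' : s < 3 / 2) {E : ℝ} (hE : 0 < E) {t : ℝ → ℝ} (ht : ContDiff ℝ ∞ t)
    (ht1 : ∀ ξ, |t ξ| ≤ 1) {e : ℝ} (hte : ∀ ξ, t (-ξ) = e * t ξ) (c : ℂ) (hc : ‖c‖ = 1)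
    (htc : ∀ ξ : ℝ, (c * Complex.exp (((π * ξ : ℝ) : ℂ) * Complex.I)).re = t ξ) {b : ℝ}
    (hb : b < ∫ ξ, t ξ ^ 2 * (1 / (p s ξ + E))) :
    ∃ (u : 𝓢(ℝ, ℂ)) (A : ℝ), b < A ∧ A ≤ ‖u (1 / 2)‖ ∧ T s u + E * ∫ x, ‖u x‖ ^ 2 ≤ A ∧
      (∀ x, u (-x) = e * u x) ∧ ∀ x, (𝓕 u : 𝓢(ℝ, ℂ)) (-x) = e * (𝓕 u : 𝓢(ℝ, ℂ)) x := by
  obtain ⟨ψ, h1, h2, h3, h4, h5, h6⟩ := ex_psi hs hE (w := fun ξ => t ξ ^ 2) (ht.continuous.pow 2)
    (fun ξ => by rw [abs_pow]; exact pow_le_one₀ (abs_nonneg _) (ht1 ξ)) hb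
  have k1 : HasCompactSupport fun ξ => ((ψ ξ * t ξ : ℝ) : ℂ) :=
    (h2.mul_right (f' := t)).comp_left (g := fun x : ℝ => (x : ℂ)) (by simp)
  have k2 : ContDiff ℝ ∞ fun ξ => ((ψ ξ * t ξ : ℝ) : ℂ) := Complex.ofRealCLM.contDiff.comp (h1.mul ht)
  set h : 𝓢(ℝ, ℂ) := k1.toSchwartzMap k2 with hh
  have hv : ∀ ξ, h ξ = ((ψ ξ * t ξ : ℝ) : ℂ) := fun ξ => rfl
  have hF : (𝓕 (𝓕⁻ h : 𝓢(ℝ, ℂ)) : 𝓢(ℝ, ℂ)) = h := FourierTransform.fourier_fourierInv_eq h
  have hpar : ∀ x, h (-x) = e * h x := by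
    intro x; rw [hv, hv, h3, hte]; push_cast; ring
  have hu : ∀ x, (𝓕⁻ h : 𝓢(ℝ, ℂ)) x = ∫ ξ : ℝ, Complex.exp (((2 * π * ξ * x : ℝ) : ℂ) * Complex.I) * h ξ := by
    intro x
    rw [SchwartzMap.fourierInv_coe, Real.fourierInv_eq']
    congr 1; ext ξ
    simp only [RCLike.inner_apply, conj_trivial, smul_eq_mul]
    congr 4; ring
  have hi : Integrable fun ξ => t ξ ^ 2 * ψ ξ :=
    ((ht.continuous.pow 2).mul h1.continuous).integrable_of_hasCompactSupport h2.mul_left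
  refine ⟨𝓕⁻ h, ∫ ξ, t ξ ^ 2 * ψ ξ, h6, ?_, ?_, fun x => ?_, fun x => by rw [hF, hpar]⟩
  · have : ∫ ξ, t ξ ^ 2 * ψ ξ = (c * (𝓕⁻ h : 𝓢(ℝ, ℂ)) (1 / 2)).re := by
      rw [hu, ← integral_const_mul, ← RCLike.re_to_complex, ← integral_re]
      · congr 1; ext ξ
        rw [← mul_assoc, hv, RCLike.re_to_complex, Complex.re_mul_ofReal, show 2 * π * ξ * (1 / 2) = π * ξ by ring,
          htc]
        ring
      · exact ((h.integrable (μ := volume)).bdd_mul (c := 1) (by fun_prop : Continuous fun ξ : ℝ =>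
          Complex.exp (((2 * π * ξ * (1 / 2) : ℝ) : ℂ) * Complex.I)).aestronglyMeasurable
          (Eventually.of_forall fun v => (Complex.norm_exp_ofReal_mul_I _).le)).const_mul c
    rw [this]
    refine (Complex.re_le_norm _).trans (le_of_eq ?_)
    rw [norm_mul, hc, one_mul]
  · rw [Q_eq (by linarith) hs', hF]
    refine integral_mono_of_nonneg (Eventually.of_forall fun ξ => ?_) hi (Eventually.of_forall fun ξ => ?_)
    · have := p_nonneg s ξ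
      positivity
    · simp only [hv, Complex.norm_real, Real.norm_eq_abs, sq_abs]
      nlinarith [mul_le_mul_of_nonneg_right (h5 ξ) (mul_nonneg (sq_nonneg (t ξ)) (h4 ξ))]
  · rw [hu, hu, ← integral_neg_eq_self, ← integral_const_mul]
    congr 1; ext ξ
    rw [hpar, show 2 * π * -ξ * -x = 2 * π * ξ * x by ring]
    ring

lemma parity {m : ℝ → ℝ} (hm : ∀ x, m (-x) = m x) (hi : ∀ f : 𝓢(ℝ, ℂ), Integrable fun x => m x * ‖f x‖ ^ 2)
    (u v : 𝓢(ℝ, ℂ)) (hu : ∀ x, u (-x) = u x) (hv : ∀ x, v (-x) = - v x) (a b : ℂ) :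
    ∫ x, m x * ‖(a • u + b • v) x‖ ^ 2 =
      ‖a‖ ^ 2 * (∫ x, m x * ‖u x‖ ^ 2) + ‖b‖ ^ 2 * ∫ x, m x * ‖v x‖ ^ 2 := by
  have h1 : ∫ x, m x * ‖(a • u + b • v) x‖ ^ 2 = ∫ x, m x * ‖(a • u - b • v) x‖ ^ 2 := by
    rw [← integral_neg_eq_self]
    congr 1; ext x
    simp [hm, hu, hv, sub_eq_add_neg]
  have h2 : (∫ x, m x * ‖(a • u + b • v) x‖ ^ 2) + ∫ x, m x * ‖(a • u - b • v) x‖ ^ 2 =
      2 * (‖a‖ ^ 2 * (∫ x, m x * ‖u x‖ ^ 2) + ‖b‖ ^ 2 * ∫ x, m x * ‖v x‖ ^ 2) := by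
    rw [← integral_add (hi _) (hi _), ← integral_const_mul, ← integral_const_mul,
      ← integral_add ((hi _).const_mul _) ((hi _).const_mul _), ← integral_const_mul]
    congr 1; ext x
    have := parallelogram_law_with_norm ℂ (a * u x) (b * v x)
    simp only [norm_mul] at this
    simp only [add_apply, sub_apply, smul_apply, smul_eq_mul]
    linear_combination m x * this
  linarith

lemma two (hs : 1 < s) (hs' : s < 3 / 2) : ∃ W : ℝ → ℝ, (∀ x, 0 ≤ W x) ∧ Integrable W ∧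
    g s 0 * ∫ x, W x < (max 0 (-ev s W 1)) ^ (1 - 1 / (2 * s)) + (max 0 (-ev s W 2)) ^ (1 - 1 / (2 * s)) := by
  obtain ⟨x, y, K, hx, hxy, hK, h1, h2, h3⟩ := choose hs
  have hy : 0 < y := by linarith
  have hs0 : 0 < s := by linarith
  have hEx : 0 < x ^ (2 * s) := rpow_pos_of_pos hx _
  have hEy : 0 < y ^ (2 * s) := rpow_pos_of_pos hy _
  have hb1 : 1 / (2 * K) < ∫ ξ, cos (π * ξ) ^ 2 * (1 / (p s ξ + x ^ (2 * s))) := by
    have e : ∀ ξ, cos (π * ξ) ^ 2 * (1 / (p s ξ + x ^ (2 * s))) = 1 / 2 * (1 / (p s ξ + x ^ (2 * s)) +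
        cos (2 * π * 1 * ξ) * (1 / (p s ξ + x ^ (2 * s)))) := by
      intro ξ; rw [cos_sq, show 2 * π * 1 * ξ = 2 * (π * ξ) by ring]; ring
    simp only [e]
    rw [integral_const_mul, integral_add (phi_int hs hEx) (cosphi_int hs hEx 1), scale0 hx, scale hx, one_mul,
      show 1 - 2 * s = -(2 * s - 1) by ring, rpow_neg hx.le]
    have := rpow_pos_of_pos hx (2 * s - 1)
    rw [← mul_add, div_lt_iff₀ (by positivity)]
    calc (1 : ℝ) < K * (g s 0 + g s x) / x ^ (2 * s - 1) := by rwa [lt_div_iff₀ this, one_mul]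
      _ = _ := by field_simp
  have hb2 : 1 / (2 * K) < ∫ ξ, sin (π * ξ) ^ 2 * (1 / (p s ξ + y ^ (2 * s))) := by
    have e : ∀ ξ, sin (π * ξ) ^ 2 * (1 / (p s ξ + y ^ (2 * s))) = 1 / 2 * (1 / (p s ξ + y ^ (2 * s)) -
        cos (2 * π * 1 * ξ) * (1 / (p s ξ + y ^ (2 * s)))) := by
      intro ξ; rw [sin_sq, cos_sq, show 2 * π * 1 * ξ = 2 * (π * ξ) by ring]; ring
    simp only [e]
    rw [integral_const_mul, integral_sub (phi_int hs hEy) (cosphi_int hs hEy 1), scale0 hy, scale hy, one_mul,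
      show 1 - 2 * s = -(2 * s - 1) by ring, rpow_neg hy.le]
    have := rpow_pos_of_pos hy (2 * s - 1)
    rw [← mul_sub, div_lt_iff₀ (by positivity)]
    calc (1 : ℝ) < K * (g s 0 - g s y) / y ^ (2 * s - 1) := by rwa [lt_div_iff₀ this, one_mul]
      _ = _ := by field_simp
  obtain ⟨u, A, hA, hAu, hQu, hu1, hu2⟩ := ex_trial hs hs' hEx (t := fun ξ => cos (π * ξ)) (by fun_prop)
    (fun ξ => abs_cos_le_one _) (e := 1) (fun ξ => by simp) 1 (by simp)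
    (fun ξ => by rw [one_mul, Complex.exp_ofReal_mul_I_re]) hb1
  obtain ⟨v, B, hB, hBv, hQv, hv1, hv2⟩ := ex_trial hs hs' hEy (t := fun ξ => sin (π * ξ)) (by fun_prop)
    (fun ξ => abs_sin_le_one _) (e := -1) (fun ξ => by simp) (-Complex.I) (by simp)
    (fun ξ => by simp only [neg_mul, Complex.neg_re, Complex.I_mul_re, neg_neg, Complex.exp_ofReal_mul_I_im]) hb2
  simp only [Complex.ofReal_one, one_mul, Complex.ofReal_neg, neg_mul] at hu1 hu2 hv1 hv2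
  have hK2 : 0 < 1 / (2 * K) := by positivity
  have key : ∀ (f : 𝓢(ℝ, ℂ)) (A : ℝ), 1 / (2 * K) < A → A ≤ ‖f (1 / 2)‖ →
      ∀ᶠ z in 𝓝 (1 / 2 : ℝ), A / (2 * K) < ‖f z‖ ^ 2 := by
    intro f A h1 h2
    refine (f.continuous.norm.pow 2).continuousAt.eventually (lt_mem_nhds ?_)
    have : A / (2 * K) = A * (1 / (2 * K)) := by ring
    have hA0 : 0 < A := hK2.trans h1
    show A / (2 * K) < ‖f (1 / 2)‖ ^ 2
    calc A / (2 * K) = A * (1 / (2 * K)) := this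
      _ < A * A := mul_lt_mul_of_pos_left h1 hA0
      _ = A ^ 2 := (sq A).symm
      _ ≤ _ := pow_le_pow_left₀ hA0.le h2 2
  obtain ⟨η, hη, hball⟩ := Metric.eventually_nhds_iff_ball.1 ((key u A hA hAu).and (key v B hB hBv))
  set w : ℝ → ℝ := (Set.Ioo (1 / 2 - η) (1 / 2 + η)).indicator fun _ => K / (2 * η) with hw
  have hw0 : ∀ z, 0 ≤ w z := fun z => Set.indicator_nonneg (fun _ _ => by positivity) z
  have hwi : Integrable w := by
    rw [hw, integrable_indicator_iff measurableSet_Ioo]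
    exact integrableOn_const (by simp)
  have hwK : ∫ z, w z = K := by
    rw [hw, integral_indicator_const _ measurableSet_Ioo, Real.volume_real_Ioo_of_le (by linarith), smul_eq_mul]
    field_simp; ring
  set W : ℝ → ℝ := fun z => w z + w (-z) with hW
  have hW0 : ∀ z, 0 ≤ W z := fun z => add_nonneg (hw0 _) (hw0 _)
  have hWi : Integrable W := hwi.add hwi.comp_neg
  have hWK : ∫ z, W z = 2 * K := by
    rw [hW, integral_add hwi hwi.comp_neg, integral_neg_eq_self, hwK]; ring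
  have hWe : ∀ z, W (-z) = W z := fun z => by simp only [hW, neg_neg, add_comm]
  have pot : ∀ (f : 𝓢(ℝ, ℂ)) (A : ℝ), (∀ z, ‖f (-z)‖ = ‖f z‖) →
      (∀ z ∈ Metric.ball (1 / 2 : ℝ) η, A / (2 * K) < ‖f z‖ ^ 2) → A ≤ ∫ z, W z * ‖f z‖ ^ 2 := by
    intro f A hf h
    have e1 : ∫ z, w (-z) * ‖f z‖ ^ 2 = ∫ z, w z * ‖f z‖ ^ 2 := by
      rw [← integral_neg_eq_self]; simp only [neg_neg, hf]
    have e2 : ∫ z, w z * (A / (2 * K)) ≤ ∫ z, w z * ‖f z‖ ^ 2 := by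
      refine integral_mono (hwi.mul_const _) (Wsq_int hwi f) fun z => ?_
      by_cases hz : z ∈ Set.Ioo (1 / 2 - η) (1 / 2 + η)
      · exact mul_le_mul_of_nonneg_left (h z (by rwa [Real.ball_eq_Ioo])).le (hw0 z)
      · simp only [hw, Set.indicator_of_notMem hz, zero_mul, le_refl]
    rw [integral_mul_const, hwK] at e2
    simp only [hW, add_mul]
    rw [integral_add (Wsq_int hwi f) (Wsq_int hwi.comp_neg f), e1]
    have : K * (A / (2 * K)) = A / 2 := by field_simp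
    linarith
  have pu := pot u A (fun z => by rw [hu1]) fun z hz => (hball z hz).1
  have pv := pot v B (fun z => by rw [hv1, norm_neg]) fun z hz => (hball z hz).2
  have hu0 : u (1 / 2) ≠ 0 := norm_pos_iff.1 (by linarith)
  have hv0 : v (1 / 2) ≠ 0 := norm_pos_iff.1 (by linarith)
  have hExy : x ^ (2 * s) ≤ y ^ (2 * s) := rpow_le_rpow hx.le hxy (by linarith)
  have comb : ∀ a b : ℂ, T s (a • u + b • v) - ∫ z, W z * ‖(a • u + b • v) z‖ ^ 2 ≤
      -(x ^ (2 * s) * (‖a‖ ^ 2 * ∫ z, ‖u z‖ ^ 2) + y ^ (2 * s) * (‖b‖ ^ 2 * ∫ z, ‖v z‖ ^ 2)) := by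
    intro a b
    have e : (𝓕 (a • u + b • v) : 𝓢(ℝ, ℂ)) = a • 𝓕 u + b • 𝓕 v := by
      rw [FourierTransform.fourier_add, FourierTransform.fourier_smul, FourierTransform.fourier_smul]
    rw [T_eq, e, parity (p_neg s) (psq_int hs0 hs') _ _ hu2 hv2, parity hWe (Wsq_int hWi) _ _ hu1 hv1,
      ← T_eq, ← T_eq]
    nlinarith [mul_le_mul_of_nonneg_left (hQu.trans pu) (sq_nonneg ‖a‖),
      mul_le_mul_of_nonneg_left (hQv.trans pv) (sq_nonneg ‖b‖)]
  have nrm : ∀ a b : ℂ, ∫ z, ‖(a • u + b • v) z‖ ^ 2 = ‖a‖ ^ 2 * (∫ z, ‖u z‖ ^ 2) + ‖b‖ ^ 2 * ∫ z, ‖v z‖ ^ 2 := by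
    intro a b
    simpa only [one_mul] using parity (m := fun _ => 1) (fun _ => rfl) (fun f => by simpa using sq_int f)
      u v hu1 hv1 a b
  have hWp : 0 < ∫ z, W z := by rw [hWK]; positivity
  have ev1 : ev s W 1 ≤ -y ^ (2 * s) := by
    refine ev_le hs hs' hW0 hWi hWp (Submodule.span ℂ {v}) 1 (finrank_span_singleton fun h => hv0 (by simp [h]))
      v (Submodule.mem_span_singleton_self v) _ hv0 fun f hf => ?_
    obtain ⟨b, rfl⟩ := Submodule.mem_span_singleton.1 hf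
    have c1 := comb 0 b
    have c2 := nrm 0 b
    simp only [zero_smul, zero_add, norm_zero] at c1 c2
    rw [c2]
    linarith
  have ev2 : ev s W 2 ≤ -x ^ (2 * s) := by
    have li : LinearIndependent ℂ ![u, v] := by
      rw [LinearIndependent.pair_iff]
      intro a b h
      have k1 := congrArg (fun f : 𝓢(ℝ, ℂ) => f (1 / 2)) h
      have k2 := congrArg (fun f : 𝓢(ℝ, ℂ) => f (-(1 / 2))) h
      simp only [add_apply, smul_apply, smul_eq_mul, hu1, hv1, zero_apply] at k1 k2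
      have : a * u (1 / 2) = 0 := by linear_combination (k1 + k2) / 2
      have : b * v (1 / 2) = 0 := by linear_combination (k1 - k2) / 2
      simp_all
    have fr := finrank_span_eq_card li
    rw [Matrix.range_cons, Matrix.range_cons, Matrix.range_empty, Set.union_empty, Set.singleton_union] at fr
    refine ev_le hs hs' hW0 hWi hWp (Submodule.span ℂ {u, v}) 2 (by simpa using fr)
      u (Submodule.subset_span (by simp)) _ hu0 fun f hf => ?_
    obtain ⟨a, b, rfl⟩ := Submodule.mem_span_pair.1 hf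
    rw [nrm]
    have : 0 ≤ ‖b‖ ^ 2 * ∫ z, ‖v z‖ ^ 2 := mul_nonneg (sq_nonneg _) (integral_nonneg fun _ => sq_nonneg _)
    nlinarith [comb a b, mul_le_mul_of_nonneg_right hExy this]
  have hγ : 0 < 1 - 1 / (2 * s) := by
    rw [sub_pos, div_lt_one (by linarith)]; linarith
  have pw : ∀ z : ℝ, 0 < z → ∀ t : ℝ, t ≤ -z ^ (2 * s) → z ^ (2 * s - 1) ≤ (max 0 (-t)) ^ (1 - 1 / (2 * s)) := by
    intro z hz t ht
    calc z ^ (2 * s - 1) = (z ^ (2 * s)) ^ (1 - 1 / (2 * s)) := by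
          rw [← rpow_mul hz.le]; congr 1; field_simp
      _ ≤ _ := rpow_le_rpow (by positivity) (le_max_of_le_right (by linarith)) hγ.le
  refine ⟨W, hW0, hWi, ?_⟩
  rw [hWK]
  linarith [pw y hy _ ev1, pw x hx _ ev2]

end Pool.Agent.H.MP_43cb56_mp
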